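import Mathlib

/-!
# XE2: the potential with a left end

`LB g K Z D x = g K z_+^D`, `z = x / g + Z`.  `left_step`: as `Pool.Agent.XE.soft_step`.  Suppose `H' = H - u α > LB (a - α)`.
`z ≤ 0` or `LB a < 1`: `H = 0`.  Convexity: `u < p = K D z^(D-1)`, so `u₁ ≤ (K/4) z^D`, and
`LB a - LB (a - α₁) < p α + u₁ α₁`.  `α₁ ≤ g z`: the left side is `≥ α₁ K z^(D-1)`.  `α₁ > g z`: it is `g K z^D`, and
`p α ≤ g K z^D / 2` unless `g z < 2 D α`, `LB a < 1`.
-/

set_option autoImplicit false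

namespace Pool.Agent.XE2

/-- The potential. -/
noncomputable def LB (g K Z : ℝ) (D : ℕ) (x : ℝ) : ℝ := g * K * (max 0 (x / g + Z)) ^ D

theorem LB_nonneg {g K : ℝ} (hg : 0 < g) (hK : 0 < K) (Z : ℝ) (D : ℕ) (x : ℝ) :
    0 ≤ LB g K Z D x := by
  unfold LB
  have : 0 ≤ max 0 (x / g + Z) := le_max_left _ _
  positivity

theorem LB_zero {g K Z x : ℝ} {D : ℕ} (hD : 1 ≤ D) (h : x / g + Z ≤ 0) : LB g K Z D x = 0 := by
  unfold LB
  rw [max_eq_left h, zero_pow (by omega), mul_zero]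

theorem LB_pos {g K Z x : ℝ} {D : ℕ} (h : 0 ≤ x / g + Z) :
    LB g K Z D x = g * K * (x / g + Z) ^ D := by
  unfold LB
  rw [max_eq_right h]

/-- Bernoulli. -/
private theorem pow_sub_ge {z δ : ℝ} (hz : 0 ≤ z) (D : ℕ) :
    z ^ (D + 1) - (D + 1) * z ^ D * δ ≤ (max 0 (z - δ)) ^ (D + 1) := by
  rcases le_or_gt (z - δ) 0 with h | h
  · rw [max_eq_left h, zero_pow (by omega)]
    have h1 : z ^ (D + 1) ≤ z ^ D * δ := by
      rw [pow_succ]
      exact mul_le_mul_of_nonneg_left (by linarith) (by positivity)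
    have h2 : 0 ≤ z ^ D * δ := by
      have : 0 ≤ δ := by linarith
      positivity
    have h3 : 0 ≤ (D : ℝ) * (z ^ D * δ) := by positivity
    nlinarith
  · rw [max_eq_right h.le]
    induction D with
    | zero => simp
    | succ D ih =>
      have h1 := ih
      have h2 : (z ^ (D + 1) - (D + 1) * z ^ D * δ) * (z - δ) ≤ (z - δ) ^ (D + 1) * (z - δ) :=
        mul_le_mul_of_nonneg_right h1 h.le
      have h3 : (z - δ) ^ (D + 1 + 1) = (z - δ) ^ (D + 1) * (z - δ) := pow_succ _ _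
      have h4 : 0 ≤ ((D : ℝ) + 1) * z ^ D * δ ^ 2 := by positivity
      have h5 : (z ^ (D + 1) - (D + 1) * z ^ D * δ) * (z - δ) =
          z ^ (D + 1 + 1) - ((D : ℝ) + 1 + 1) * z ^ (D + 1) * δ + ((D : ℝ) + 1) * z ^ D * δ ^ 2 := by
        ring
      rw [h3]
      push_cast
      linarith

theorem left_step {g K Z c a α α₁ H H' H₁ u u₁ : ℝ} {D : ℕ} (hD : 2 ≤ D) (hg : 0 < g)
    (hK : 0 < K) (hc : 0 < c) (hKc : c * K * (D : ℝ) ^ D * 4 ^ (D - 1) ≤ 1) (hz : a / g + Z ≤ 1)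
    (hα : 0 ≤ α) (hαα : 2 * D * α ≤ α₁) (hα₁ : α₁ ≤ g) (hα₁0 : 0 < α₁)
    (hsm : g * K * (2 * D * α / g) ^ D < 1) (hH0 : H < 1 → H ≤ 0)
    (hH : H ≤ LB g K Z D a) (hH₁ : H₁ ≤ LB g K Z D (a - α₁)) (hu : 0 ≤ u) (hu₁ : 0 ≤ u₁)
    (h' : H' = H - u * α) (h₁ : H₁ = H - u₁ * α₁) (hF : u₁ ^ (D - 1) ≤ c * u ^ D) :
    H' ≤ LB g K Z D (a - α) := by
  by_contra hcon
  push Not at hcon
  obtain ⟨E, rfl⟩ : ∃ E, D = E + 1 := ⟨D - 1, by omega⟩
  have hE1 : 1 ≤ E := by omega
  have hDr : (0 : ℝ) < ((E + 1 : ℕ) : ℝ) := by positivity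
  have huα : 0 ≤ u * α := mul_nonneg hu hα
  have hHpos : 0 < H := by
    have := LB_nonneg hg hK Z (E + 1) (a - α)
    linarith
  have hH1 : 1 ≤ H := by
    by_contra h
    push Not at h
    have := hH0 h
    linarith
  obtain ⟨z, hzd⟩ : ∃ z, z = a / g + Z := ⟨_, rfl⟩
  rw [← hzd] at hz
  have hz0 : 0 < z := by
    by_contra h
    push Not at h
    rw [LB_zero (by omega) (by rw [← hzd]; exact h)] at hH
    linarith
  have hBa : LB g K Z (E + 1) a = g * K * z ^ (E + 1) := by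
    rw [hzd]
    exact LB_pos (by rw [← hzd]; exact hz0.le)
  have hdiv : ∀ x : ℝ, (a - x) / g + Z = z - x / g := by
    intro x
    rw [hzd]
    ring
  obtain ⟨p, hp⟩ : ∃ p : ℝ, p = K * ((E : ℝ) + 1) * z ^ E := ⟨_, rfl⟩
  have hp0 : 0 < p := by
    rw [hp]
    positivity
  have hE' : ((E + 1 : ℕ) : ℝ) = (E : ℝ) + 1 := by push_cast; ring
  -- convexity
  have hcx : LB g K Z (E + 1) a - p * α ≤ LB g K Z (E + 1) (a - α) := by
    have h1 := pow_sub_ge (z := z) (δ := α / g) hz0.le E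
    rw [hBa]
    unfold LB
    rw [hdiv]
    have h2 : g * K * (z ^ (E + 1) - (E + 1) * z ^ E * (α / g)) ≤
        g * K * (max 0 (z - α / g)) ^ (E + 1) :=
      mul_le_mul_of_nonneg_left h1 (by positivity)
    have h3 : g * K * (z ^ (E + 1) - (E + 1) * z ^ E * (α / g)) =
        g * K * z ^ (E + 1) - p * α := by
      rw [hp]
      field_simp
    linarith
  have hup : u * α < p * α := by linarith
  have hup' : u ≤ p := by
    by_contra h
    push Not at h
    have := mul_le_mul_of_nonneg_right h.le hα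
    linarith
  -- the rank of a general linear form
  have hu₁' : u₁ ≤ K / 4 * z ^ (E + 1) := by
    have h1 : u₁ ^ E ≤ (K / 4 * z ^ (E + 1)) ^ E := by
      have h2 : u₁ ^ E ≤ c * p ^ (E + 1) := by
        have h3 : u₁ ^ E ≤ c * u ^ (E + 1) := by simpa using hF
        exact h3.trans (mul_le_mul_of_nonneg_left (pow_le_pow_left₀ hu hup' _) hc.le)
      refine h2.trans ?_
      have h3 : c * K * ((E : ℝ) + 1) ^ (E + 1) * 4 ^ E ≤ 1 := by
        have h4 := hKc
        rw [hE'] at h4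
        simpa using h4
      have h5 : c * p ^ (E + 1) = (c * K * ((E : ℝ) + 1) ^ (E + 1) * 4 ^ E) *
          (K / 4 * z ^ (E + 1)) ^ E := by
        rw [hp]
        have h6 : (K / 4 * z ^ (E + 1)) ^ E = K ^ E / 4 ^ E * (z ^ E) ^ (E + 1) := by
          rw [mul_pow, div_pow, ← pow_mul, ← pow_mul, mul_comm (E + 1) E]
        rw [h6]
        have h7 : (4 : ℝ) ^ E ≠ 0 := by positivity
        field_simp
        rw [mul_pow, mul_pow]
        ring
      rw [h5]
      have h8 : 0 ≤ (K / 4 * z ^ (E + 1)) ^ E := by positivity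
      nlinarith
    exact le_of_pow_le_pow_left₀ (by omega) (by positivity) h1
  -- the drop
  have hdrop : LB g K Z (E + 1) a - LB g K Z (E + 1) (a - α₁) < p * α + u₁ * α₁ := by linarith
  have hzE : z ^ (E + 1) ≤ z ^ E := by
    rw [pow_succ]
    have : 0 < z ^ E := by positivity
    nlinarith
  have hu₁2 : u₁ * α₁ ≤ K / 4 * z ^ (E + 1) * α₁ := mul_le_mul_of_nonneg_right hu₁' hα₁0.le
  rcases le_or_gt α₁ (g * z) with h | h
  · -- `α₁ ≤ g z`
    have h1 : 0 ≤ z - α₁ / g := by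
      rw [sub_nonneg, div_le_iff₀ hg]
      linarith
    have h2 : LB g K Z (E + 1) (a - α₁) ≤ g * K * ((z - α₁ / g) * z ^ E) := by
      rw [LB_pos (by rw [hdiv]; exact h1), hdiv]
      refine mul_le_mul_of_nonneg_left ?_ (by positivity)
      rw [pow_succ, mul_comm]
      refine mul_le_mul_of_nonneg_left (pow_le_pow_left₀ h1 ?_ _) h1
      have : 0 ≤ α₁ / g := by positivity
      linarith
    have h3 : g * K * ((z - α₁ / g) * z ^ E) = g * K * z ^ (E + 1) - K * z ^ E * α₁ := by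
      rw [pow_succ]
      field_simp
    have h4 : p * α ≤ K * z ^ E * α₁ / 2 := by
      have h5 : ((E : ℝ) + 1) * α ≤ α₁ / 2 := by
        rw [hE'] at hαα
        linarith
      have h6 : K * z ^ E * (((E : ℝ) + 1) * α) ≤ K * z ^ E * (α₁ / 2) :=
        mul_le_mul_of_nonneg_left h5 (by positivity)
      rw [hp]
      linarith
    have h5 : K / 4 * z ^ (E + 1) * α₁ ≤ K / 4 * z ^ E * α₁ := by
      refine mul_le_mul_of_nonneg_right ?_ hα₁0.le
      exact mul_le_mul_of_nonneg_left hzE (by positivity)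
    have h6 : 0 < K * z ^ E * α₁ := by positivity
    rw [hBa] at hdrop
    linarith
  · -- `α₁ > g z`
    have h1 : z - α₁ / g ≤ 0 := by
      rw [sub_nonpos, le_div_iff₀ hg]
      linarith
    have h2 : LB g K Z (E + 1) (a - α₁) = 0 := LB_zero (by omega) (by rw [hdiv]; exact h1)
    rw [h2, hBa] at hdrop
    have h3 : K / 4 * z ^ (E + 1) * α₁ ≤ g * K * z ^ (E + 1) / 4 := by
      have h4 : K / 4 * z ^ (E + 1) * α₁ ≤ K / 4 * z ^ (E + 1) * g :=
        mul_le_mul_of_nonneg_left hα₁ (by positivity)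
      linarith
    rcases le_or_gt (2 * ((E : ℝ) + 1) * α) (g * z) with h4 | h4
    · have h5 : p * α ≤ g * K * z ^ (E + 1) / 2 := by
        have h6 : K * z ^ E * (2 * ((E : ℝ) + 1) * α) ≤ K * z ^ E * (g * z) :=
          mul_le_mul_of_nonneg_left h4 (by positivity)
        rw [hp, pow_succ]
        linarith
      have h6 : 0 < g * K * z ^ (E + 1) := by positivity
      linarith
    · have h5 : g * K * z ^ (E + 1) ≤ g * K * (2 * ((E + 1 : ℕ) : ℝ) * α / g) ^ (E + 1) := by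
        refine mul_le_mul_of_nonneg_left (pow_le_pow_left₀ hz0.le ?_ _) (by positivity)
        rw [le_div_iff₀ hg, hE']
        linarith
      rw [hBa] at hH
      linarith

end Pool.Agent.XE2
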