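import Mathlib

/-!
# XE2: few monomials have few common multiples, with the exponent of Kruskal and Katona

`R` monomials of degree `j`, `T` monomials of degree `j + 1` with all divisors of degree `j` in `R`:
`|T|^j ≤ C |R|^(j+1)`.  Induction: for a variable `y` let `R_y = {v | y v ∈ R}`, `T_y = {w | y w ∈ T}`.  Then `T_y` embeds into
`R`, and `|T_y|^j ≤ C |R_y|^(j+1)`, so `|T_y|^(j+1) ≤ C |R| |R_y|^(j+1)`, `|T_y| ≤ ρ |R_y|` with `ρ^(j+1) = C |R|`;
`|T| ≤ ∑ |T_y| ≤ ρ ∑ |R_y| ≤ ρ (j + 1) |R|`.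
-/

set_option autoImplicit false

namespace Pool.Agent.XE2

open Finset

/-- The monomials `v` with `y v ∈ R`. -/
private def lk (R : Finset (Multiset ℕ)) (y : ℕ) : Finset (Multiset ℕ) :=
  (R.filter fun v => y ∈ v).image fun v => v.erase y

private theorem mem_lk {R : Finset (Multiset ℕ)} {y : ℕ} {v : Multiset ℕ} :
    v ∈ lk R y ↔ y ::ₘ v ∈ R := by
  unfold lk
  rw [mem_image]
  constructor
  · rintro ⟨w, hw, rfl⟩
    rw [mem_filter] at hw
    rw [Multiset.cons_erase hw.2]
    exact hw.1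
  · intro h
    exact ⟨y ::ₘ v, mem_filter.2 ⟨h, Multiset.mem_cons_self y v⟩, Multiset.erase_cons_head y v⟩

private theorem card_lk (R : Finset (Multiset ℕ)) (y : ℕ) :
    (lk R y).card = (R.filter fun v => y ∈ v).card := by
  unfold lk
  refine card_image_of_injOn ?_
  intro v hv w hw h
  rw [mem_coe, mem_filter] at hv hw
  have h' : v.erase y = w.erase y := h
  rw [← Multiset.cons_erase hv.2, ← Multiset.cons_erase hw.2, h']

/-- The variables of the monomials of `T`. -/
private def vs (T : Finset (Multiset ℕ)) : Finset ℕ := T.biUnion Multiset.toFinset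

private theorem sum_ge {T : Finset (Multiset ℕ)} (h : ∀ w ∈ T, 1 ≤ Multiset.card w) :
    T.card ≤ ∑ y ∈ vs T, (T.filter fun v => y ∈ v).card := by
  have h1 : ∑ y ∈ vs T, (T.filter fun v => y ∈ v).card =
      ∑ v ∈ T, ((vs T).filter fun y => y ∈ v).card := by
    simp only [card_filter]
    exact sum_comm
  rw [h1, card_eq_sum_ones]
  refine sum_le_sum fun v hv => ?_
  obtain ⟨x, hx⟩ := Multiset.card_pos_iff_exists_mem.1 (h v hv)
  rw [Nat.one_le_iff_ne_zero, ← Nat.pos_iff_ne_zero, card_pos]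
  refine ⟨x, mem_filter.2 ⟨mem_biUnion.2 ⟨v, hv, Multiset.mem_toFinset.2 hx⟩, hx⟩⟩

private theorem sum_le {R : Finset (Multiset ℕ)} (Y : Finset ℕ) {j : ℕ}
    (h : ∀ v ∈ R, Multiset.card v = j) :
    ∑ y ∈ Y, (R.filter fun v => y ∈ v).card ≤ j * R.card := by
  have h1 : ∑ y ∈ Y, (R.filter fun v => y ∈ v).card =
      ∑ v ∈ R, (Y.filter fun y => y ∈ v).card := by
    simp only [card_filter]
    exact sum_comm
  rw [h1, mul_comm, ← smul_eq_mul]
  refine sum_le_card_nsmul _ _ _ fun v hv => ?_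
  have h2 : (Y.filter fun y => y ∈ v) ⊆ v.toFinset := fun y hy =>
    Multiset.mem_toFinset.2 (mem_filter.1 hy).2
  exact (card_le_card h2).trans ((Multiset.toFinset_card_le v).trans (h v hv).le)

theorem kkp (j : ℕ) (hj : 1 ≤ j) : ∃ C : ℝ, 0 < C ∧ ∀ R T : Finset (Multiset ℕ),
    (∀ v ∈ R, Multiset.card v = j) →
    (∀ w ∈ T, Multiset.card w = j + 1 ∧ ∀ x ∈ w, w.erase x ∈ R) →
    (T.card : ℝ) ^ j ≤ C * (R.card : ℝ) ^ (j + 1) := by
  classical
  induction j, hj using Nat.le_induction with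
  | base =>
    refine ⟨1, one_pos, fun R T hR hT => ?_⟩
    have h1 : T ⊆ (R ×ˢ R).image fun p => p.1 + p.2 := by
      intro w hw
      obtain ⟨hw1, hw2⟩ := hT w hw
      obtain ⟨x, y, rfl⟩ := Multiset.card_eq_two.1 hw1
      refine mem_image.2 ⟨({x}, {y}), mem_product.2 ⟨?_, ?_⟩, ?_⟩
      · have := hw2 y (by simp)
        rwa [show ({x, y} : Multiset ℕ) = y ::ₘ {x} from Multiset.pair_comm x y,
          Multiset.erase_cons_head] at this
      · have := hw2 x (by simp)
        rwa [show ({x, y} : Multiset ℕ) = x ::ₘ {y} from rfl, Multiset.erase_cons_head] at this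
      · rfl
    have h2 : T.card ≤ R.card * R.card := by
      refine (card_le_card h1).trans (card_image_le.trans ?_)
      rw [card_product]
    have h3 : (T.card : ℝ) ≤ R.card * R.card := by exact_mod_cast h2
    rw [pow_one, one_mul, pow_succ, pow_one]
    exact h3
  | succ j hj ih =>
    obtain ⟨C, hC, h⟩ := ih
    refine ⟨C * ((j : ℝ) + 1) ^ (j + 1), by positivity, fun R T hR hT => ?_⟩
    obtain ⟨ρ, hρ⟩ : ∃ ρ : ℝ, ρ = (C * (R.card : ℝ)) ^ (((j + 1 : ℕ) : ℝ)⁻¹) := ⟨_, rfl⟩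
    have hρ0 : 0 ≤ ρ := by
      rw [hρ]
      positivity
    have hρ1 : ρ ^ (j + 1) = C * (R.card : ℝ) := by
      rw [hρ]
      exact Real.rpow_inv_natCast_pow (by positivity) (by omega)
    have hT1 : ∀ y, (lk T y).card ≤ R.card := by
      intro y
      refine card_le_card fun v hv => ?_
      rw [mem_lk] at hv
      have h1 := (hT _ hv).2 y (Multiset.mem_cons_self y v)
      rwa [Multiset.erase_cons_head] at h1
    have hT2 : ∀ y, ((lk T y).card : ℝ) ^ j ≤ C * ((lk R y).card : ℝ) ^ (j + 1) := by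
      intro y
      refine h (lk R y) (lk T y) (fun v hv => ?_) fun w hw => ?_
      · rw [mem_lk] at hv
        have h1 := hR _ hv
        rw [Multiset.card_cons] at h1
        omega
      · rw [mem_lk] at hw
        obtain ⟨h1, h2⟩ := hT _ hw
        rw [Multiset.card_cons] at h1
        refine ⟨by omega, fun x hx => ?_⟩
        rw [mem_lk]
        have h3 := h2 x (Multiset.mem_cons_of_mem hx)
        rwa [Multiset.erase_cons_tail_of_mem hx] at h3
    have hT3 : ∀ y, ((lk T y).card : ℝ) ≤ ρ * ((lk R y).card : ℝ) := by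
      intro y
      have h1 : ((lk T y).card : ℝ) ^ (j + 1) ≤ (ρ * ((lk R y).card : ℝ)) ^ (j + 1) := by
        have h2 : ((lk T y).card : ℝ) ≤ R.card := by exact_mod_cast hT1 y
        rw [mul_pow, hρ1, pow_succ]
        calc ((lk T y).card : ℝ) ^ j * ((lk T y).card : ℝ)
            ≤ (C * ((lk R y).card : ℝ) ^ (j + 1)) * R.card :=
              mul_le_mul (hT2 y) h2 (Nat.cast_nonneg _) (by positivity)
          _ = C * R.card * ((lk R y).card : ℝ) ^ (j + 1) := by ring
      exact le_of_pow_le_pow_left₀ (by omega) (by positivity) h1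
    have h1 : (T.card : ℝ) ≤ ∑ y ∈ vs T, ((lk T y).card : ℝ) := by
      have h2 := sum_ge (T := T) fun w hw => by
        rw [(hT w hw).1]
        omega
      have h3 : ∑ y ∈ vs T, ((lk T y).card : ℝ) =
          ((∑ y ∈ vs T, (T.filter fun v => y ∈ v).card : ℕ) : ℝ) := by
        push_cast
        exact sum_congr rfl fun y _ => by rw [card_lk]
      rw [h3]
      exact_mod_cast h2
    have h2 : ∑ y ∈ vs T, ((lk R y).card : ℝ) ≤ ((j : ℝ) + 1) * R.card := by
      have h3 := sum_le (R := R) (vs T) hR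
      have h4 : ∑ y ∈ vs T, ((lk R y).card : ℝ) =
          ((∑ y ∈ vs T, (R.filter fun v => y ∈ v).card : ℕ) : ℝ) := by
        push_cast
        exact sum_congr rfl fun y _ => by rw [card_lk]
      rw [h4]
      exact_mod_cast h3
    have h3 : (T.card : ℝ) ≤ ρ * (((j : ℝ) + 1) * R.card) := by
      calc (T.card : ℝ) ≤ ∑ y ∈ vs T, ((lk T y).card : ℝ) := h1
        _ ≤ ∑ y ∈ vs T, ρ * ((lk R y).card : ℝ) := sum_le_sum fun y _ => hT3 y
        _ = ρ * ∑ y ∈ vs T, ((lk R y).card : ℝ) := by rw [mul_sum]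
        _ ≤ ρ * (((j : ℝ) + 1) * R.card) := mul_le_mul_of_nonneg_left h2 hρ0
    calc (T.card : ℝ) ^ (j + 1) ≤ (ρ * (((j : ℝ) + 1) * R.card)) ^ (j + 1) :=
          pow_le_pow_left₀ (Nat.cast_nonneg _) h3 _
      _ = ρ ^ (j + 1) * ((j : ℝ) + 1) ^ (j + 1) * (R.card : ℝ) ^ (j + 1) := by
          rw [mul_pow, mul_pow]
          ring
      _ = C * ((j : ℝ) + 1) ^ (j + 1) * (R.card : ℝ) ^ (j + 1 + 1) := by
          rw [hρ1, pow_succ (R.card : ℝ) (j + 1)]
          ring

end Pool.Agent.XE2
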