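import Pool.Agent.XE.SmallE
import Pool.Agent.XE2.KKp

/-!
# XE2: small ranks, with the exponent

`|EE i|^j ≤ C |EE j|^i` for `1 ≤ j ≤ i ≤ d` (`kkp`, induction on `i`).
-/

set_option autoImplicit false

namespace Pool.Agent.XE2

open Finset Pool.Agent.XD Pool.Agent.XE

theorem EE_pow_one (d i : ℕ) (hi : 1 ≤ i) (hid : i + 1 ≤ d) : ∃ C : ℝ, 0 < C ∧
    ∀ (m : ℕ) (N : Finset (Multiset ℕ)) (f : ℕ → ℕ → ℕ), 1 ≤ m → Stair m d N f →
      ((EE N m d (i + 1)).card : ℝ) ^ i ≤ C * ((EE N m d i).card : ℝ) ^ (i + 1) := by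
  obtain ⟨C, hC, h⟩ := kkp i hi
  refine ⟨C, hC, fun m N f hm hN => h _ _ (fun v hv => (mem_EE.1 hv).1.2.1) fun w hw => ?_⟩
  exact ⟨(mem_EE.1 hw).1.2.1, fun x hx => EE_erase hN hm hid hw hx⟩

theorem EE_pow (d j i : ℕ) (hj : 1 ≤ j) (hji : j ≤ i) (hid : i ≤ d) : ∃ C : ℝ, 0 < C ∧
    ∀ (m : ℕ) (N : Finset (Multiset ℕ)) (f : ℕ → ℕ → ℕ), 1 ≤ m → Stair m d N f →
      ((EE N m d i).card : ℝ) ^ j ≤ C * ((EE N m d j).card : ℝ) ^ i := by
  induction i, hji using Nat.le_induction with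
  | base => exact ⟨1, one_pos, fun m N f _ _ => by rw [one_mul]⟩
  | succ i hji ih =>
    obtain ⟨C, hC, h⟩ := ih (by omega)
    obtain ⟨C', hC', h'⟩ := EE_pow_one d i (by omega) hid
    obtain ⟨B, hB⟩ : ∃ B : ℝ, B = max 1 (C' ^ j * C ^ (i + 1)) := ⟨_, rfl⟩
    have hB1 : 1 ≤ B := by
      rw [hB]
      exact le_max_left _ _
    have hB2 : C' ^ j * C ^ (i + 1) ≤ B := by
      rw [hB]
      exact le_max_right _ _
    refine ⟨B, by linarith, fun m N f hm hN => ?_⟩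
    have h1 := h m N f hm hN
    have h2 := h' m N f hm hN
    obtain ⟨x, hx⟩ : ∃ x : ℝ, x = ((EE N m d (i + 1)).card : ℝ) := ⟨_, rfl⟩
    obtain ⟨y, hy⟩ : ∃ y : ℝ, y = ((EE N m d i).card : ℝ) := ⟨_, rfl⟩
    obtain ⟨z, hz⟩ : ∃ z : ℝ, z = ((EE N m d j).card : ℝ) := ⟨_, rfl⟩
    rw [← hy, ← hz] at h1
    rw [← hx, ← hy] at h2
    rw [← hx, ← hz]
    have hx0 : 0 ≤ x := by
      rw [hx]
      exact Nat.cast_nonneg _
    have hy0 : 0 ≤ y := by
      rw [hy]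
      exact Nat.cast_nonneg _
    have hz0 : 0 ≤ z := by
      rw [hz]
      exact Nat.cast_nonneg _
    have h3 : (x ^ j) ^ i ≤ (B * z ^ (i + 1)) ^ i := by
      calc (x ^ j) ^ i = (x ^ i) ^ j := by rw [← pow_mul, ← pow_mul, mul_comm]
        _ ≤ (C' * y ^ (i + 1)) ^ j := pow_le_pow_left₀ (by positivity) h2 _
        _ = C' ^ j * (y ^ j) ^ (i + 1) := by
            rw [mul_pow, ← pow_mul, ← pow_mul, mul_comm (i + 1) j]
        _ ≤ C' ^ j * (C * z ^ i) ^ (i + 1) := by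
            refine mul_le_mul_of_nonneg_left (pow_le_pow_left₀ (by positivity) h1 _) (by positivity)
        _ = C' ^ j * C ^ (i + 1) * (z ^ (i + 1)) ^ i := by
            rw [mul_pow, ← pow_mul, ← pow_mul, mul_comm i (i + 1)]
            ring
        _ ≤ B ^ i * (z ^ (i + 1)) ^ i := by
            refine mul_le_mul_of_nonneg_right ?_ (by positivity)
            refine hB2.trans ?_
            calc B = B ^ 1 := (pow_one B).symm
              _ ≤ B ^ i := pow_le_pow_right₀ hB1 (by omega)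
        _ = (B * z ^ (i + 1)) ^ i := (mul_pow _ _ _).symm
    exact le_of_pow_le_pow_left₀ (by omega) (by positivity) h3

/-- One constant for all degrees. -/
theorem EE_pow_all (d : ℕ) (hd : 2 ≤ d) : ∃ C : ℝ, 1 ≤ C ∧
    ∀ (j m : ℕ) (N : Finset (Multiset ℕ)) (f : ℕ → ℕ → ℕ), 1 ≤ j → j + 1 ≤ d → 1 ≤ m →
      Stair m d N f →
      ((EE N m d (d - 1)).card : ℝ) ^ j ≤ C * ((EE N m d j).card : ℝ) ^ (d - 1) := by
  have key : ∀ J : ℕ, ∃ C : ℝ, 1 ≤ C ∧
      ∀ (j m : ℕ) (N : Finset (Multiset ℕ)) (f : ℕ → ℕ → ℕ), j < J → 1 ≤ j → j + 1 ≤ d → 1 ≤ m →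
      Stair m d N f →
      ((EE N m d (d - 1)).card : ℝ) ^ j ≤ C * ((EE N m d j).card : ℝ) ^ (d - 1) := by
    intro J
    induction J with
    | zero => exact ⟨1, le_rfl, fun j m N f h => absurd h (Nat.not_lt_zero _)⟩
    | succ J ih =>
      obtain ⟨C, hC, h⟩ := ih
      by_cases hJ : 1 ≤ J ∧ J + 1 ≤ d
      · obtain ⟨C', hC', h'⟩ := EE_pow d J (d - 1) hJ.1 (by omega) (by omega)
        refine ⟨max C C', hC.trans (le_max_left _ _), fun j m N f h1 h2 h3 h4 h5 => ?_⟩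
        have h6 : (0 : ℝ) ≤ ((EE N m d j).card : ℝ) ^ (d - 1) := by positivity
        rcases Nat.lt_or_ge j J with h7 | h7
        · exact (h j m N f h7 h2 h3 h4 h5).trans (mul_le_mul_of_nonneg_right (le_max_left _ _) h6)
        · have h8 : j = J := by omega
          subst h8
          exact (h' m N f h4 h5).trans (mul_le_mul_of_nonneg_right (le_max_right _ _) h6)
      · refine ⟨C, hC, fun j m N f h1 h2 h3 h4 h5 => ?_⟩
        rcases Nat.lt_or_ge j J with h7 | h7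
        · exact h j m N f h7 h2 h3 h4 h5
        · exfalso
          apply hJ
          omega
  obtain ⟨C, hC, h⟩ := key d
  exact ⟨C, hC, fun j m N f h2 h3 h4 h5 => h j m N f (by omega) h2 h3 h4 h5⟩

end Pool.Agent.XE2
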