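import Pool.Agent.XE.Step
import Pool.Agent.XE2.Star3
import Pool.Agent.XE2.Left

/-!
# XE2: the transport on the negative side

`main_left`: for `n₁ ≤ m ≤ n`, `g = n^(d-1)`, if `A e m t d ≤ -(Z - 1) g` then `FF e m t d ≤ LB g K Z (d - 1) (A e m t d)`.  The
constants: `K = 1 / (2 c (8 D)^D)`, `D = d - 1`, `c` of `star3`; `exp (-lam (Z - 1)) ≤ lam K / 2^D`, `lam` of `main_bound`.
Induction on `t`: if `A e m t d > -(Z - 1) g` then `main_bound` at `(m, t + 1)`, and `LB` is `≥ g K / 2^D`; otherwise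
`left_step`.  `m = n₁`: the number of the conditions is large, `FF = 0` (`Sys_small`).
`xe2`: `m = n`; `d = 2`: simple points.
-/

set_option autoImplicit false

namespace Pool.Agent.XE2

open Finset Pool.Agent.XD Pool.Agent.XE

private theorem BB_le_exp {c : ℝ} (hc : 0 < c) (x : ℝ) : BB c x ≤ c * Real.exp (x / c) := by
  unfold BB
  refine mul_le_mul_of_nonneg_left ?_ hc.le
  have h := Real.log_le_sub_one_of_pos (x := 1 + Real.exp (x / c)) (by positivity)
  linarith

theorem main_left (d : ℕ) (hd : 3 ≤ d) : ∃ K Z : ℝ, 0 < K ∧ 1 < Z ∧ ∃ n₁ n₀ : ℕ, n₁ ≤ n₀ ∧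
    ∀ n, n₀ ≤ n → ∀ e : ℕ → ℕ, (∀ s, 2 ≤ e s) → ∀ t, (∀ s < t, e s ≤ d) → ∀ m, n₁ ≤ m → m ≤ n →
      (A e m t d : ℝ) ≤ -((Z - 1) * (n : ℝ) ^ (d - 1)) →
      (FF e m t d : ℝ) ≤ LB ((n : ℝ) ^ (d - 1)) K Z (d - 1) (A e m t d : ℝ) := by
  obtain ⟨lam, hlam, a₀, b₀, hab, hM⟩ := main_bound d (by omega)
  obtain ⟨η, hη, a₁, hbd⟩ := bd d (by omega)
  obtain ⟨c, hc1, a₂, hst⟩ := star3 d hd η hη
  have hc0 : 0 < c := by linarith
  obtain ⟨D, hD⟩ : ∃ D, D = d - 1 := ⟨_, rfl⟩
  rw [← hD]
  have hD2 : 2 ≤ D := by omega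
  have hDr : (2 : ℝ) ≤ D := by exact_mod_cast hD2
  obtain ⟨a₃, ha₃⟩ := exists_nat_ge (2 * D / η)
  -- `K`
  obtain ⟨K, hK⟩ : ∃ K : ℝ, K = 1 / (2 * c * (2 * D) ^ D * 4 ^ D) := ⟨_, rfl⟩
  have hK0 : 0 < K := by
    rw [hK]
    positivity
  have hK1 : c * K * (D : ℝ) ^ D * 4 ^ (D - 1) ≤ 1 := by
    have h1 : (4 : ℝ) ^ (D - 1) ≤ 4 ^ D := pow_le_pow_right₀ (by norm_num) (by omega)
    have h2 : (D : ℝ) ^ D ≤ (2 * D) ^ D := pow_le_pow_left₀ (by positivity) (by linarith) _
    calc c * K * (D : ℝ) ^ D * 4 ^ (D - 1) ≤ c * K * (2 * D) ^ D * 4 ^ D := by gcongr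
      _ = 1 / 2 := by
          rw [hK]
          field_simp
      _ ≤ 1 := by norm_num
  have hK2 : K * (2 * D) ^ D < 1 := by
    have h1 : (1 : ℝ) ≤ 4 ^ D := one_le_pow₀ (by norm_num)
    have h2 : K * (2 * D) ^ D = 1 / (2 * c * 4 ^ D) := by
      rw [hK]
      field_simp
    rw [h2, div_lt_one (by positivity)]
    nlinarith
  -- `Z`
  obtain ⟨w, hw⟩ : ∃ w : ℝ, w = lam * (K * (1 / 2) ^ D) := ⟨_, rfl⟩
  have hw0 : 0 < w := by
    rw [hw]
    positivity
  obtain ⟨y, hy1, hy2⟩ : ∃ y : ℝ, 1 ≤ y ∧ Real.exp (-(lam * y)) ≤ w := by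
    refine ⟨max 1 (-Real.log w / lam), le_max_left _ _, ?_⟩
    calc Real.exp (-(lam * max 1 (-Real.log w / lam))) ≤ Real.exp (Real.log w) := by
          rw [Real.exp_le_exp]
          have h1 : lam * (-Real.log w / lam) ≤ lam * max 1 (-Real.log w / lam) :=
            mul_le_mul_of_nonneg_left (le_max_right _ _) hlam.le
          rw [mul_div_cancel₀ _ hlam.ne'] at h1
          linarith
      _ = w := Real.exp_log hw0
  obtain ⟨n₁, hn₁⟩ : ∃ n₁ : ℕ, n₁ = a₀ + a₁ + a₂ + a₃ + 1 := ⟨_, rfl⟩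
  obtain ⟨n₂, hn₂⟩ : ∃ n₂ : ℕ, ((n₁ : ℝ) + (n₁ : ℝ) ^ d) ^ d < n₂ := exists_nat_gt _
  refine ⟨K, y + 1, hK0, by linarith, n₁, n₁ + b₀ + n₂ + 2, by omega, fun n hn e he => ?_⟩
  rw [show y + 1 - 1 = y by ring]
  have hn2 : 2 ≤ n := by omega
  have hnR : (2 : ℝ) ≤ n := by exact_mod_cast hn2
  have hn0 : (0 : ℝ) < n := by linarith
  obtain ⟨g, hg⟩ : ∃ g : ℝ, g = (n : ℝ) ^ D := ⟨_, rfl⟩
  have hg0 : 0 < g := by
    rw [hg]
    positivity
  have hgn : (n : ℝ) ≤ g := by
    rw [hg]
    calc (n : ℝ) = (n : ℝ) ^ 1 := (pow_one _).symm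
      _ ≤ (n : ℝ) ^ D := pow_le_pow_right₀ (by linarith) (by omega)
  rw [← hg]
  have he1 : ∀ s, 1 ≤ e s := fun s => le_trans (by norm_num) (he s)
  have hF : Sys d e (FF e) := sys_FF d e he1
  have hyg : 0 < y * g := by positivity
  have hgd : g = (n : ℝ) ^ (d - 2) * n := by
    rw [hg, ← pow_succ]
    congr 1
    omega
  intro t
  induction t with
  | zero =>
    intro _ m _ _ hA
    exfalso
    rw [A_zero] at hA
    have h1 : (0 : ℝ) ≤ (((Nat.multichoose m d : ℕ) : ℤ) : ℝ) := by positivity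
    linarith
  | succ t ih =>
    intro ht m hm hmn hA
    have ih' := ih fun s hs => ht s (by omega)
    rcases Nat.eq_or_lt_of_le hm with h0 | h0
    · -- `m = n₁`
      subst h0
      rcases Sys_small hF he n₁ (by omega) (t + 1) ht with h | h
      · rw [h]
        simpa using LB_nonneg hg0 hK0 _ _ _
      · exfalso
        have h3 : (((t + 1 : ℕ) : ℝ)) ≤ (n₁ : ℝ) ^ d := by
          have : t + 1 ≤ n₁ ^ d := by omega
          exact_mod_cast this
        have h6 : |(A e n₁ (t + 1) d : ℝ)| ≤ ((n₁ : ℝ) + ((t + 1 : ℕ) : ℝ)) ^ d := by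
          have := A_abs he n₁ (t + 1) d
          exact_mod_cast this
        have h7 : ((n₁ : ℝ) + ((t + 1 : ℕ) : ℝ)) ^ d ≤ ((n₁ : ℝ) + (n₁ : ℝ) ^ d) ^ d :=
          pow_le_pow_left₀ (by positivity) (by linarith) _
        have h8 := (abs_le.1 (h6.trans h7)).1
        have h9 : (n₂ : ℝ) ≤ n := by
          have : n₂ ≤ n := by omega
          exact_mod_cast this
        have h10 : g ≤ y * g := by nlinarith
        linarith
    rcases hbd m (by omega) e he (t + 1) ht with h | h
    · rw [h]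
      simpa using LB_nonneg hg0 hK0 _ _ _
    have hm1 : 1 ≤ m := by omega
    have hmR : (1 : ℝ) ≤ m := by exact_mod_cast hm1
    have hmnR : (m : ℝ) ≤ n := by exact_mod_cast hmn
    have hpos : ∀ j < d, 0 ≤ A e m (t + 1) j := by
      intro j hj
      have h1 : (0 : ℝ) ≤ η * (m : ℝ) ^ j := by positivity
      exact_mod_cast h1.trans (h j hj)
    have hanti : ∀ j < d, A e m (t + 1) j ≤ A e m t j := fun j hj =>
      A_anti_t he1 hpos (Nat.le_succ t) hj.le
    have hreg : ∀ j < d, η * (m : ℝ) ^ j ≤ (A e m t j : ℝ) := by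
      intro j hj
      refine (h j hj).trans ?_
      exact_mod_cast hanti j hj
    have hpos' : ∀ j < d, 0 ≤ A e m t j := fun j hj => (hpos j hj).trans (hanti j hj)
    have hle : ∀ j < d, (A e m t j : ℝ) ≤ (m : ℝ) ^ j := by
      intro j hj
      exact_mod_cast A_le_pow he1 hpos' hj.le
    have het : e t ≤ d := ht t (by omega)
    have het2 := he t
    obtain ⟨u, u₁, hu, hu₁, hH', hH₁, hF'⟩ := hst m (by omega) e (FF e) he hF t hreg het
    have hA1 : (A e m (t + 1) d : ℝ) = (A e m t d : ℝ) - (A e m t (d - e t) : ℝ) := by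
      rw [A_succ, if_pos het]
      push_cast
      ring
    have hA2 : (A e (m - 1) t d : ℝ) = (A e m t d : ℝ) - (A e m t (d - 1) : ℝ) := by
      have h1 := A_pascal he1 (m - 1) t (d - 1)
      rw [Nat.sub_add_cancel hm1, Nat.sub_add_cancel (by omega : 1 ≤ d)] at h1
      have h2 : (A e m t d : ℝ) = (A e (m - 1) t d : ℝ) + (A e m t (d - 1) : ℝ) := by
        exact_mod_cast h1
      linarith
    have hα0 : (0 : ℝ) ≤ (A e m t (d - e t) : ℝ) := by exact_mod_cast hpos' (d - e t) (by omega)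
    have hαm : (A e m t (d - e t) : ℝ) ≤ (m : ℝ) ^ (d - 2) :=
      (hle (d - e t) (by omega)).trans (pow_le_pow_right₀ hmR (by omega))
    have hαn : (A e m t (d - e t) : ℝ) ≤ (n : ℝ) ^ (d - 2) :=
      hαm.trans (pow_le_pow_left₀ (by positivity) hmnR _)
    have hαg : (A e m t (d - e t) : ℝ) / g ≤ 1 / n := by
      rw [div_le_div_iff₀ hg0 hn0, one_mul, hgd]
      exact mul_le_mul_of_nonneg_right hαn hn0.le
    have hα₁ : (A e m t (d - 1) : ℝ) ≤ g := by
      rw [hg, hD]
      exact (hle (d - 1) (by omega)).trans (pow_le_pow_left₀ (by positivity) hmnR _)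
    have hα₁0 : 0 < (A e m t (d - 1) : ℝ) := by
      refine lt_of_lt_of_le ?_ (hreg (d - 1) (by omega))
      positivity
    rcases le_or_gt (A e m t d : ℝ) (-(y * g)) with hcase | hcase
    · -- the step
      rw [hA1]
      have hαα : 2 * D * (A e m t (d - e t) : ℝ) ≤ (A e m t (d - 1) : ℝ) := by
        have h3 := hreg (d - 1) (by omega)
        have h4 : 2 * D ≤ η * m := by
          rw [div_le_iff₀ hη] at ha₃
          have h5 : (a₃ : ℝ) ≤ m := by
            have : a₃ ≤ m := by omega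
            exact_mod_cast this
          nlinarith
        have h5 : (m : ℝ) ^ (d - 1) = (m : ℝ) ^ (d - 2) * m := by
          rw [← pow_succ]
          congr 1
          omega
        rw [h5] at h3
        calc 2 * D * (A e m t (d - e t) : ℝ) ≤ 2 * D * (m : ℝ) ^ (d - 2) :=
              mul_le_mul_of_nonneg_left hαm (by positivity)
          _ ≤ η * m * (m : ℝ) ^ (d - 2) := mul_le_mul_of_nonneg_right h4 (by positivity)
          _ = η * ((m : ℝ) ^ (d - 2) * m) := by ring
          _ ≤ _ := h3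
      have hsm : g * K * (2 * D * (A e m t (d - e t) : ℝ) / g) ^ D < 1 := by
        have h1 : 2 * D * (A e m t (d - e t) : ℝ) / g ≤ 2 * D * (1 / n) := by
          rw [mul_div_assoc]
          exact mul_le_mul_of_nonneg_left hαg (by positivity)
        have h2 : g * K * (2 * D * (A e m t (d - e t) : ℝ) / g) ^ D ≤
            g * K * (2 * D * (1 / n)) ^ D := by
          refine mul_le_mul_of_nonneg_left (pow_le_pow_left₀ ?_ h1 _) (by positivity)
          positivity
        have h3 : g * K * (2 * D * (1 / n)) ^ D = K * (2 * D) ^ D := by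
          rw [hg, mul_pow, one_div, inv_pow]
          field_simp
        linarith
      have hIH := ih' m hm hmn hcase
      have hIH₁ := ih' (m - 1) (by omega) (by omega) (by rw [hA2]; linarith)
      rw [hA2] at hIH₁
      have hz : (A e m t d : ℝ) / g + (y + 1) ≤ 1 := by
        have h1 : (A e m t d : ℝ) / g ≤ -y := by
          rw [div_le_iff₀ hg0]
          linarith
        linarith
      refine left_step hD2 hg0 hK0 hc0 hK1 hz hα0 hαα hα₁ hα₁0 hsm ?_ hIH hIH₁ hu hu₁ hH' hH₁ ?_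
      · intro h1
        have h2 : FF e m t d < 1 := by exact_mod_cast h1
        have h3 : FF e m t d = 0 := by omega
        rw [h3]
        simp
      · rw [show D - 1 = d - 2 by omega, hD]
        exact hF'
    · -- the first small number
      have h1 := hM n (by omega) e he (t + 1) ht m (by omega) hmn
      rw [← hD, ← hg] at h1
      have h2 : (FF e m (t + 1) d : ℝ) ≤ g * (K * (1 / 2) ^ D) := by
        refine h1.trans ((BB_le_exp (by positivity) _).trans ?_)
        have h3 : (A e m (t + 1) d : ℝ) / (g / lam) ≤ -(lam * y) := by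
          rw [div_le_iff₀ (by positivity)]
          have h4 : -(lam * y) * (g / lam) = -(y * g) := by
            field_simp
          rw [h4]
          exact hA
        have h4 : Real.exp ((A e m (t + 1) d : ℝ) / (g / lam)) ≤ w :=
          (Real.exp_le_exp.2 h3).trans hy2
        calc g / lam * Real.exp ((A e m (t + 1) d : ℝ) / (g / lam)) ≤ g / lam * w :=
              mul_le_mul_of_nonneg_left h4 (by positivity)
          _ = g * (K * (1 / 2) ^ D) := by
              rw [hw]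
              field_simp
      refine h2.trans ?_
      have h3 : 1 / 2 ≤ (A e m (t + 1) d : ℝ) / g + (y + 1) := by
        rw [hA1, sub_div]
        have h4 : -y ≤ (A e m t d : ℝ) / g := by
          rw [le_div_iff₀ hg0]
          linarith
        have h5 : (1 : ℝ) / n ≤ 1 / 2 := one_div_le_one_div_of_le (by norm_num) hnR
        linarith
      rw [LB_pos (by linarith), mul_assoc]
      refine mul_le_mul_of_nonneg_left ?_ hg0.le
      exact mul_le_mul_of_nonneg_left (pow_le_pow_left₀ (by norm_num) h3 _) hK0.le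

/-- Simple points. -/
private theorem simple_pt {d : ℕ} {e : ℕ → ℕ} {F : ℕ → ℕ → ℕ → ℕ} (hF : Sys d e F)
    (he : ∀ s, 1 ≤ e s) {m t : ℕ} (hm : 1 ≤ m) (h : e t = d) :
    F m (t + 1) d = 0 ∨ F m (t + 1) d + 1 = F m t d := by
  obtain ⟨N, hN, hk, -⟩ := hF.ker m t hm
  have h1 := hk h.le
  rw [h, Nat.sub_self, hF.deg_zero he] at h1
  have h2 := EE_card N m (le_refl d)
  rw [Nat.sub_self, hN.cnt m le_rfl 0 (Nat.zero_le d)] at h2
  have h3 : F m t 0 = 1 := hF.deg_zero he m t
  rw [h3] at h2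
  rcases Nat.eq_zero_or_pos (EE N m d 0).card with h0 | h0
  · left
    have h4 : EE N m d 0 = ∅ := card_eq_zero.1 h0
    have h5 := EE_empty hN hm (Nat.zero_le d) le_rfl h4
    have h6 : (lay N m d).card = F m t d := hN.cnt m le_rfl d le_rfl
    have h7 : lay N m d = ∅ := by
      rw [Finset.eq_empty_iff_forall_notMem]
      intro v hv
      have h8 : v ∈ EE N m d d := by
        rw [mem_EE]
        refine ⟨mem_lay.1 hv, ?_⟩
        rw [Nat.sub_self, Multiset.replicate_zero, add_zero]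
        exact (mem_lay.1 hv).1
      rw [h5] at h8
      exact Finset.notMem_empty _ h8
    rw [h7, card_empty] at h6
    omega
  · right
    omega

private theorem two_case (e : ℕ → ℕ) (he : ∀ s, 2 ≤ e s) (m : ℕ) (hm : 1 ≤ m) (t : ℕ)
    (ht : ∀ s < t, e s ≤ 2) : FF e m t 2 = 0 ∨ (FF e m t 2 : ℤ) = A e m t 2 := by
  have he1 : ∀ s, 1 ≤ e s := fun s => le_trans (by norm_num) (he s)
  have hF : Sys 2 e (FF e) := sys_FF 2 e he1
  induction t with
  | zero =>
    right
    rw [hF.zero m 2 le_rfl, A_zero]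
  | succ t ih =>
    have h2 : e t = 2 := le_antisymm (ht t (by omega)) (he t)
    rcases simple_pt hF he1 hm h2 with h | h
    · exact Or.inl h
    · right
      rcases ih fun s hs => ht s (by omega) with h3 | h3
      · omega
      · rw [A_succ, if_pos h2.le, h2, Nat.sub_self, A_deg_zero he1, ← h3]
        omega

/-- The numbers `A e m t j` and the dimension: the positive side with a logarithm, the negative side without. -/
theorem xe2 (d : ℕ) : ∃ C : ℝ, 0 < C ∧ ∃ n₀ : ℕ, ∀ m, n₀ ≤ m → ∀ e : ℕ → ℕ, (∀ s, 2 ≤ e s) →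
    ∀ t, (∀ s < t, e s ≤ d) →
      ((∀ j < d, 0 < A e m t j) → C * (m : ℝ) ^ (d - 1) * Real.log m ≤ (A e m t d : ℝ) →
        (FF e m t d : ℤ) = A e m t d) ∧
      ((∃ j < d, A e m t j ≤ 0) ∨ (A e m t d : ℝ) ≤ -(C * (m : ℝ) ^ (d - 1)) →
        FF e m t d = 0) := by
  obtain ⟨C, hC, n₀, h⟩ := xe d
  have key : ∃ Z : ℝ, 0 < Z ∧ ∃ n₁ : ℕ, ∀ m, n₁ ≤ m → ∀ e : ℕ → ℕ, (∀ s, 2 ≤ e s) →
      ∀ t, (∀ s < t, e s ≤ d) → (A e m t d : ℝ) ≤ -(Z * (m : ℝ) ^ (d - 1)) → FF e m t d = 0 := by
    rcases Nat.lt_or_ge d 3 with hd | hd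
    · refine ⟨1, one_pos, 1, fun m hm e he t ht hA => ?_⟩
      have hm1 : (1 : ℝ) ≤ m := by exact_mod_cast hm
      have h0 : (A e m t d : ℝ) < 0 := by
        have h1 : (0 : ℝ) < 1 * (m : ℝ) ^ (d - 1) := by positivity
        linarith
      have h0' : A e m t d < 0 := by exact_mod_cast h0
      rcases Nat.lt_or_ge d 2 with hd2 | hd2
      · exfalso
        have ht0 : t = 0 := by
          by_contra h1
          have h2 := ht 0 (by omega)
          have h3 := he 0
          omega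
        subst ht0
        rw [A_zero] at h0'
        omega
      · obtain rfl : d = 2 := by omega
        rcases two_case e he m hm t ht with h1 | h1
        · exact h1
        · omega
    · obtain ⟨K, Z, hK, hZ, n₁, n₂, hn, hM⟩ := main_left d hd
      refine ⟨Z, by linarith, n₂ + 1, fun m hm e he t ht hA => ?_⟩
      have hm1 : (1 : ℝ) ≤ m := by
        have : 1 ≤ m := by omega
        exact_mod_cast this
      have hg0 : (0 : ℝ) < (m : ℝ) ^ (d - 1) := by positivity
      have h1 := hM m (by omega) e he t ht m (by omega) le_rfl (by nlinarith)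
      rw [LB_zero (by omega)] at h1
      · have h2 : FF e m t d ≤ 0 := by exact_mod_cast h1
        omega
      · have h2 : (A e m t d : ℝ) / (m : ℝ) ^ (d - 1) ≤ -Z := by
          rw [div_le_iff₀ hg0]
          linarith
        linarith
  obtain ⟨Z, hZ, n₁, h'⟩ := key
  refine ⟨C + Z, by positivity, n₀ + n₁ + 1, fun m hm e he t ht => ?_⟩
  have hm1 : (1 : ℝ) ≤ m := by
    have : 1 ≤ m := by omega
    exact_mod_cast this
  have hlog : 0 ≤ Real.log m := Real.log_nonneg hm1
  have hpow : (0 : ℝ) < (m : ℝ) ^ (d - 1) := by positivity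
  obtain ⟨hX, hY⟩ := h m (by omega) e he t ht
  refine ⟨fun h1 h2 => hX h1 (le_trans ?_ h2), fun h1 => ?_⟩
  · refine mul_le_mul_of_nonneg_right ?_ hlog
    exact mul_le_mul_of_nonneg_right (by linarith) hpow.le
  · rcases h1 with h1 | h1
    · exact hY (Or.inl h1)
    · refine h' m (by omega) e he t ht (h1.trans ?_)
      have h2 : 0 ≤ C * (m : ℝ) ^ (d - 1) := by positivity
      linarith

end Pool.Agent.XE2
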