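import Pool.Agent.XD.Seq
import Pool.Agent.XE2.Step2

/-!
# XE2: the dimension for all configurations off the layer `-C N^(d-1) < a_d < C N^(d-1) log N`

As `Pool.Agent.XE.classify2` (`exists_seq`, `gen_gdim`), with `xe2`.
-/

set_option autoImplicit false

namespace Pool.Agent.XE2

open Finset Pool.Agent.H21.NX Pool.Agent.H21.HD Pool.Agent.H18.Fat Pool.Agent.XD Pool.Agent.XE

theorem classify3 (d : ℕ) : ∃ C : ℝ, 0 < C ∧ ∃ n₀ : ℕ, ∀ (r k : ℕ) (m : Fin k → ℕ),
    (∀ i, 1 ≤ m i ∧ m i ≤ d) → ∀ N : ℕ, (N : ℤ) = fro r (fun i => d + 1 - m i) univ 1 → n₀ ≤ N →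
      ((∃ j < d, fro r (fun i => d + 1 - m i) univ j ≤ 0) ∨
          (fro r (fun i => d + 1 - m i) univ d : ℝ) ≤ -(C * (N : ℝ) ^ (d - 1)) →
        ForGeneralPoints r k fun p => Module.finrank ℂ (fatForms r d p m) = 0) ∧
      ((∀ j < d, 0 < fro r (fun i => d + 1 - m i) univ j) →
        C * (N : ℝ) ^ (d - 1) * Real.log N ≤ (fro r (fun i => d + 1 - m i) univ d : ℝ) →
        ForGeneralPoints r k fun p => (Module.finrank ℂ (fatForms r d p m) : ℤ) =
          fro r (fun i => d + 1 - m i) univ d) := by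
  obtain ⟨C, hC, n₀, h⟩ := xe2 d
  refine ⟨C, hC, n₀ + 1, fun r k m hm N hN hn => ?_⟩
  have h1 : 0 < fro r (fun i => d + 1 - m i) univ 1 := by
    rw [← hN]
    exact_mod_cast (by omega : 0 < N)
  obtain ⟨e, m', t, he, hed, _, hm1, hA, hg⟩ := exists_seq r d k m hm h1
  have hmN : m' = N := by
    rw [← hm1] at hN
    exact_mod_cast hN.symm
  subst hmN
  have hgen : ForGeneralPoints r k fun p =>
      Module.finrank ℂ (fatForms r d p m) = FF e m' t d := by
    rw [← hg]
    exact gen_gdim r d m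
  obtain ⟨hX1, hX2⟩ := h m' (by omega) e he t hed
  refine ⟨fun h' => ?_, fun h' h'' => ?_⟩
  · have h2 := hX2 (by
      rcases h' with ⟨j, hj, h'⟩ | h'
      · exact Or.inl ⟨j, hj, by rw [← hA j]; exact h'⟩
      · exact Or.inr (by rw [← hA d]; exact h'))
    rw [h2] at hgen
    exact hgen
  · have h2 := hX1 (fun j hj => by rw [← hA j]; exact h' j hj) (by rw [← hA d]; exact h'')
    refine hgen.mono fun p hp => ?_
    rw [hp, hA d]
    exact h2

end Pool.Agent.XE2
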